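import Pool.Agent.V5helper79.EMT.Base

set_option autoImplicit false

/-! Two triangles have no edge-magic total labeling. -/

namespace Pool.Agent.V5helper79.EMT

open Pool.Agent.R12.SEM Pool.Agent.R12.EMT Pool.Agent.Helper1.CycleMagic
  Pool.Agent.Helper1.CycleMagic.Multi

theorem ne_iff' (a b : ℕ) : ne a b = true ↔ ¬ a = b := by
  unfold ne
  rw [Bool.not_eq_true', ← Bool.not_eq_true, Nat.beq_eq]

theorem ir_iff (t : ℕ) : ir t = true ↔ (1 ≤ t ∧ t ≤ 12) := by
  simp [ir]

theorem mem_rr {t : ℕ} (h1 : 1 ≤ t) (h2 : t ≤ 12) : t ∈ rr := by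
  unfold rr
  interval_cases t <;> simp

theorem step_or {p q : Bool} (h : (!p || q) = true) (hp : p = true) : q = true := by
  subst hp
  simpa using h

theorem step_not {p : Bool} (h : (!p) = true) (hp : p = true) : False := by
  subst hp
  simp at h

theorem no_labels (k a b c e1 e2 e3 x y z f1 f2 f3 : ℕ)
    (hr : ∀ t ∈ [a, b, c, e1, e2, e3, x, y, z, f1, f2, f3], 1 ≤ t ∧ t ≤ 12)
    (hnd : [a, b, c, e1, e2, e3, x, y, z, f1, f2, f3].Nodup)
    (k1 : a + e1 + b = k) (k2 : b + e2 + c = k) (k3 : a + e3 + c = k)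
    (k4 : x + f1 + y = k) (k5 : y + f2 + z = k) (k6 : x + f3 + z = k)
    (hs : a + b + c + e1 + e2 + e3 + x + y + z + f1 + f2 + f3 = 78)
    (hk : 14 ≤ k ∧ k ≤ 25) : False := by
  have hnd2 : [f3, f2, f1, z, y, x, e3, e2, e1, c, b, a].Nodup := List.nodup_reverse.2 hnd
  simp only [List.mem_cons, List.not_mem_nil, or_false, forall_eq_or_imp, forall_eq] at hr
  obtain ⟨ra, rb, rc, re1, re2, re3, rx, ry, rz, rf1, rf2, rf3⟩ := hr
  have E1 : k - a - b = e1 := by omega
  have E2 : k - b - c = e2 := by omega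
  have E3 : k - a - c = e3 := by omega
  have F1 : k - x - y = f1 := by omega
  have F2 : x + (78 + a + b + c) - 5 * k = f2 := by omega
  have F3 : y + (78 + a + b + c) - 5 * k = f3 := by omega
  have Z1 : 6 * k - 78 - a - b - c - x - y = z := by omega
  simp only [List.nodup_cons, List.mem_cons, List.not_mem_nil, or_false, not_or,
    List.nodup_nil, and_true, not_false_eq_true] at hnd hnd2
  have h := search_true
  unfold search at h
  rw [List.all_eq_true] at h
  have hkm : k ∈ [14, 15, 16, 17, 18, 19, 20, 21, 22, 23, 24, 25] := by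
    obtain ⟨h1, h2⟩ := hk
    clear * - h1 h2
    interval_cases k <;> simp
  have h1 := h k hkm
  clear h
  rw [List.all_eq_true] at h1
  have h2 := h1 a (mem_rr ra.1 ra.2)
  clear h1
  rw [List.all_eq_true] at h2
  have h3 := h2 b (mem_rr rb.1 rb.2)
  clear h2
  have h4 := step_or h3 (by
    rw [E1]
    simp only [Bool.and_eq_true, ne_iff', ir_iff, hnd, hnd2, re1, not_false_eq_true, and_self])
  clear h3
  rw [List.all_eq_true] at h4
  have h5 := h4 c (mem_rr rc.1 rc.2)
  clear h4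
  have h6 := step_or h5 (by
    rw [E1, E2, E3]
    simp only [Bool.and_eq_true, ne_iff', ir_iff, hnd, hnd2, re1, re2, re3, not_false_eq_true,
      and_self])
  clear h5
  rw [List.all_eq_true] at h6
  have h7 := h6 x (mem_rr rx.1 rx.2)
  clear h6
  have h8 := step_or h7 (by
    rw [E1, E2, E3, F2]
    simp only [Bool.and_eq_true, ne_iff', ir_iff, hnd, hnd2, rf2, not_false_eq_true,
      and_self])
  clear h7
  rw [List.all_eq_true] at h8
  have h9 := h8 y (mem_rr ry.1 ry.2)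
  clear h8
  refine step_not h9 ?_
  rw [E1, E2, E3, F1, F2, F3, Z1]
  simp only [Bool.and_eq_true, ne_iff', ir_iff, hnd, hnd2, rf1, rf2, rf3, rz, not_false_eq_true,
    and_self]

theorem adj3 {i j : Fin 3} (h : i ≠ j) : (SimpleGraph.cycleGraph 3).Adj i j := by
  revert i j
  decide

theorem not_emt33 : ¬ EdgeMagicTotal (twoCycles 3 3) := by
  classical
  rintro ⟨lam, k, hb, hk⟩
  -- the twelve elements
  have a01 : (twoCycles 3 3).Adj (Sum.inl 0) (Sum.inl 1) := adj3 (by decide)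
  have a12 : (twoCycles 3 3).Adj (Sum.inl 1) (Sum.inl 2) := adj3 (by decide)
  have a02 : (twoCycles 3 3).Adj (Sum.inl 0) (Sum.inl 2) := adj3 (by decide)
  have b01 : (twoCycles 3 3).Adj (Sum.inr 0) (Sum.inr 1) := adj3 (by decide)
  have b12 : (twoCycles 3 3).Adj (Sum.inr 1) (Sum.inr 2) := adj3 (by decide)
  have b02 : (twoCycles 3 3).Adj (Sum.inr 0) (Sum.inr 2) := adj3 (by decide)
  let F : Fin 12 → (Fin 3 ⊕ Fin 3) ⊕ (twoCycles 3 3).edgeSet :=
    ![Sum.inl (Sum.inl 0), Sum.inl (Sum.inl 1), Sum.inl (Sum.inl 2),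
      Sum.inr ⟨s(Sum.inl 0, Sum.inl 1), a01⟩, Sum.inr ⟨s(Sum.inl 1, Sum.inl 2), a12⟩,
      Sum.inr ⟨s(Sum.inl 0, Sum.inl 2), a02⟩, Sum.inl (Sum.inr 0), Sum.inl (Sum.inr 1), Sum.inl (Sum.inr 2),
      Sum.inr ⟨s(Sum.inr 0, Sum.inr 1), b01⟩, Sum.inr ⟨s(Sum.inr 1, Sum.inr 2), b12⟩,
      Sum.inr ⟨s(Sum.inr 0, Sum.inr 2), b02⟩]
  have hF : Function.Injective F := by
    intro i j hij
    fin_cases i <;> fin_cases j <;> first | rfl | (exfalso; revert hij; simp [F])
  have hinj : Function.Injective lam := fun x y h => hb.injOn (Set.mem_univ _) (Set.mem_univ _) h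
  have hG : Function.Injective (fun i => lam (F i)) := hinj.comp hF
  have hle := ncard_twoCycles (m := 3) (n := 3) (by norm_num) (by norm_num)
  have hrange : ∀ x, 1 ≤ lam x ∧ lam x ≤ 12 := by
    intro x
    have := hb.mapsTo (Set.mem_univ x)
    rw [Set.mem_Icc] at this
    have h2 : Fintype.card (Fin 3 ⊕ Fin 3) = 6 := by simp
    omega
  have himg : Finset.univ.image (fun i => lam (F i)) = Finset.Icc 1 12 := by
    apply Finset.eq_of_subset_of_card_le
    · intro y hy
      obtain ⟨x, _, hx⟩ := Finset.mem_image.1 hy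
      rw [Finset.mem_Icc, ← hx]
      exact hrange _
    · rw [Finset.card_image_of_injective _ hG]
      simp
  have hsum : ∑ i, lam (F i) = 78 := by
    have h1 : ∑ i, lam (F i) = ∑ y ∈ Finset.univ.image (fun i => lam (F i)), y := by
      rw [Finset.sum_image (fun x _ y _ h => hG h)]
    rw [h1, himg]
    decide
  have k1 := hk _ _ a01
  have k2 := hk _ _ a12
  have k3 := hk _ _ a02
  have k4 := hk _ _ b01
  have k5 := hk _ _ b12
  have k6 := hk _ _ b02
  have hnd : (List.ofFn (fun i => lam (F i))).Nodup := List.nodup_ofFn.2 hG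
  have hmem : ∀ t ∈ List.ofFn (fun i => lam (F i)), 1 ≤ t ∧ t ≤ 12 := by
    intro t ht
    rw [List.mem_ofFn] at ht
    obtain ⟨i, rfl⟩ := ht
    exact hrange _
  have hlist : List.ofFn (fun i => lam (F i)) =
      [lam (Sum.inl (Sum.inl 0)), lam (Sum.inl (Sum.inl 1)), lam (Sum.inl (Sum.inl 2)),
       lam (Sum.inr ⟨s(Sum.inl 0, Sum.inl 1), a01⟩), lam (Sum.inr ⟨s(Sum.inl 1, Sum.inl 2), a12⟩),
       lam (Sum.inr ⟨s(Sum.inl 0, Sum.inl 2), a02⟩),
       lam (Sum.inl (Sum.inr 0)), lam (Sum.inl (Sum.inr 1)), lam (Sum.inl (Sum.inr 2)),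
       lam (Sum.inr ⟨s(Sum.inr 0, Sum.inr 1), b01⟩), lam (Sum.inr ⟨s(Sum.inr 1, Sum.inr 2), b12⟩),
       lam (Sum.inr ⟨s(Sum.inr 0, Sum.inr 2), b02⟩)] := rfl
  have hs2 : (List.ofFn (fun i => lam (F i))).sum = 78 := by
    rw [List.sum_ofFn]
    exact hsum
  rw [hlist] at hnd hmem hs2
  simp only [List.sum_cons, List.sum_nil] at hs2
  have hv := hmem
  simp only [List.mem_cons, List.not_mem_nil, or_false, forall_eq_or_imp, forall_eq] at hv
  refine no_labels k _ _ _ _ _ _ _ _ _ _ _ _ hmem hnd k1 k2 k3 k4 k5 k6 (by omega) ?_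
  omega

end Pool.Agent.V5helper79.EMT
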