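import Pool.Agent.R12.EMTQ1
import Pool.Agent.Helper1.Multi5

set_option autoImplicit false

/-! Edge-magic total labelings of two cycles: symmetry, the super case, two-directional families,
and the exceptional pair of triangles. -/

namespace Pool.Agent.V5helper79.EMT

open Pool.Agent.R12.SEM Pool.Agent.R12.EMT Pool.Agent.Helper1.CycleMagic
  Pool.Agent.Helper1.CycleMagic.Multi

/-- Edge-magic total labelings can be moved along graph isomorphisms. -/
theorem emt_iso {V W : Type} [Fintype V] [Fintype W] {G : SimpleGraph V} {H : SimpleGraph W}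
    (e : G ≃g H) (h : EdgeMagicTotal G) : EdgeMagicTotal H := by
  classical
  obtain ⟨lam, k, hb, hk⟩ := h
  have hcard : Fintype.card V = Fintype.card W := Fintype.card_congr e.toEquiv
  let E : V ⊕ G.edgeSet ≃ W ⊕ H.edgeSet := Equiv.sumCongr e.toEquiv e.mapEdgeSet
  have hedge : G.edgeSet.ncard = H.edgeSet.ncard := by
    rw [← Nat.card_coe_set_eq, ← Nat.card_coe_set_eq]
    exact Nat.card_congr e.mapEdgeSet
  refine ⟨lam ∘ E.symm, k, ?_, ?_⟩
  · rw [← hcard, ← hedge]
    have : Set.BijOn E.symm Set.univ Set.univ := Set.bijOn_univ.2 E.symm.bijective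
    exact hb.comp this
  · intro x y hxy
    have h2 : G.Adj (e.symm x) (e.symm y) := e.symm.map_rel_iff.2 hxy
    have h3 := hk (e.symm x) (e.symm y) h2
    have h4 : E.symm (Sum.inr ⟨s(x, y), hxy⟩) = Sum.inr ⟨s(e.symm x, e.symm y), h2⟩ := by
      rw [Equiv.symm_apply_eq]
      simp only [E, Equiv.sumCongr_apply, Sum.map_inr]
      congr 1
      apply Subtype.ext
      simp [SimpleGraph.Iso.mapEdgeSet]
    simp only [Function.comp_apply]
    rw [h4]
    exact h3

theorem emt_symm {m n : ℕ} (h : EdgeMagicTotal (twoCycles m n)) :
    EdgeMagicTotal (twoCycles n m) :=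
  emt_iso SimpleGraph.Iso.sumComm h

/-- Super edge-magic unions of two cycles are edge-magic total. -/
theorem has_emt {m n : ℕ} (hm : 2 ≤ m) (hn : 2 ≤ n) (h : Has m n) :
    EdgeMagicTotal (twoCycles m n) := by
  classical
  obtain ⟨f, g, k, h1, h2, h3, h4, h5, h6⟩ := h
  have hcardV : Fintype.card (Fin m ⊕ Fin n) = m + n := by simp
  have himg : ∀ (u : Fin m ⊕ Fin n → ℕ) (A : ℕ), Function.Injective u →
      (∀ v, A + 1 ≤ u v ∧ u v ≤ A + (m + n)) →
      Finset.univ.image u = Finset.Icc (A + 1) (A + (m + n)) := by
    intro u A hu hb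
    apply Finset.eq_of_subset_of_card_le
    · intro y hy
      obtain ⟨x, _, hx⟩ := Finset.mem_image.1 hy
      rw [Finset.mem_Icc, ← hx]
      exact hb x
    · rw [Finset.card_image_of_injective _ hu]
      simp
  have hf := himg f 0 h1 (fun v => by have := h3 v; omega)
  have hg := himg g (m + n) h2 (fun v => by have := h4 v; omega)
  apply emt_of_cover (twoCycles m n) f k (m + n) (ncard_twoCycles hm hn)
  intro z hz1 hz2
  rw [hcardV] at hz2
  rcases Nat.lt_or_ge (m + n) z with hz | hz
  · right
    have : z ∈ Finset.univ.image g := by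
      rw [hg, Finset.mem_Icc]
      omega
    obtain ⟨x, _, hx⟩ := Finset.mem_image.1 this
    rcases x with i | i
    · refine ⟨Sum.inl i, Sum.inl ⟨(i.val + 1) % m, Nat.mod_lt _ (by omega)⟩, ?_, ?_⟩
      · rw [SimpleGraph.sum_adj]
        exact cycle_adj hm i.val i.isLt
      · rw [← hx]
        exact h5 i ⟨(i.val + 1) % m, Nat.mod_lt _ (by omega)⟩ rfl
    · refine ⟨Sum.inr i, Sum.inr ⟨(i.val + 1) % n, Nat.mod_lt _ (by omega)⟩, ?_, ?_⟩
      · rw [SimpleGraph.sum_adj]
        exact cycle_adj hn i.val i.isLt
      · rw [← hx]
        exact h6 i ⟨(i.val + 1) % n, Nat.mod_lt _ (by omega)⟩ rfl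
  · left
    have : z ∈ Finset.univ.image f := by
      rw [hf, Finset.mem_Icc]
      omega
    obtain ⟨x, _, hx⟩ := Finset.mem_image.1 this
    exact ⟨x, hx⟩

/-- Two-directional families. -/
theorem fam2E {T : Ty Bool Bool} {m n J : ℕ} (hT : Ok T) (hm : 2 ≤ m)
    (hn : 2 ≤ n) (h : Mem T (two m n) J) (a b : ℕ) :
    EdgeMagicTotal (twoCycles (m + 2 * T.G false false * a + 2 * T.G true false * b)
      (n + 2 * T.G false true * a + 2 * T.G true true * b)) := by
  have h0 : ∀ i, 0 < two m n i := by
    intro i
    cases i
    · exact Nat.lt_of_lt_of_le (by norm_num) hm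
    · exact Nat.lt_of_lt_of_le (by norm_num) hn
  have h1 := Mem.grow hT h0 h false a
  have h2 := Mem.grow hT (fun i => by have := h0 i; omega) h1 true b
  have e : (fun i => two m n i + 2 * T.G false i * a + 2 * T.G true i * b) =
      two (m + 2 * T.G false false * a + 2 * T.G true false * b)
        (n + 2 * T.G false true * a + 2 * T.G true true * b) := by
    funext i
    cases i <;> simp [two]
  rw [e] at h2
  exact Mem.emt (by omega) (by omega) h2

/-- The labels. -/
def rr : List ℕ := [1, 2, 3, 4, 5, 6, 7, 8, 9, 10, 11, 12]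

/-- Boolean inequality. -/
def ne (a b : ℕ) : Bool := !(Nat.beq a b)

/-- Label in range. -/
def ir (t : ℕ) : Bool := Nat.ble 1 t && Nat.ble t 12

/-- The search that shows that two triangles have no edge-magic total labeling. The numbers
`a, b, c` are the vertex labels of the first triangle, `k - a - b` and so on its edge labels. -/
def search : Bool :=
  [14, 15, 16, 17, 18, 19, 20, 21, 22, 23, 24, 25].all fun k => rr.all fun a => rr.all fun b =>
    !(ne a b && ir (k - a - b) && ne (k - a - b) a && ne (k - a - b) b) ||
    rr.all fun c =>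
      !(ne a c && ne b c && ne (k - a - b) c &&
        ir (k - b - c) && ne (k - b - c) a && ne (k - b - c) b && ne (k - b - c) c &&
        ir (k - a - c) && ne (k - a - c) a && ne (k - a - c) b && ne (k - a - c) c) ||
      rr.all fun x =>
        !(ne x a && ne x b && ne x c && ne x (k - a - b) && ne x (k - b - c) && ne x (k - a - c)
          && ir (x + (78 + a + b + c) - 5 * k) && ne (x + (78 + a + b + c) - 5 * k) x
          && ne (x + (78 + a + b + c) - 5 * k) a && ne (x + (78 + a + b + c) - 5 * k) b
          && ne (x + (78 + a + b + c) - 5 * k) c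
          && ne (x + (78 + a + b + c) - 5 * k) (k - a - b)
          && ne (x + (78 + a + b + c) - 5 * k) (k - b - c)
          && ne (x + (78 + a + b + c) - 5 * k) (k - a - c)) ||
        rr.all fun y =>
          !(ne x y && ne (x + (78 + a + b + c) - 5 * k) y
            && ne y a && ne y b && ne y c && ne y (k - a - b) && ne y (k - b - c)
            && ne y (k - a - c)
            && ir (y + (78 + a + b + c) - 5 * k)
            && ne (y + (78 + a + b + c) - 5 * k) x
            && ne (y + (78 + a + b + c) - 5 * k) a && ne (y + (78 + a + b + c) - 5 * k) b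
            && ne (y + (78 + a + b + c) - 5 * k) c
            && ne (y + (78 + a + b + c) - 5 * k) (k - a - b)
            && ne (y + (78 + a + b + c) - 5 * k) (k - b - c)
            && ne (y + (78 + a + b + c) - 5 * k) (k - a - c)
            && ir (6 * k - 78 - a - b - c - x - y)
            && ne (6 * k - 78 - a - b - c - x - y) x
            && ne (6 * k - 78 - a - b - c - x - y) y
            && ne (6 * k - 78 - a - b - c - x - y) a
            && ne (6 * k - 78 - a - b - c - x - y) b
            && ne (6 * k - 78 - a - b - c - x - y) c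
            && ne (6 * k - 78 - a - b - c - x - y) (k - a - b)
            && ne (6 * k - 78 - a - b - c - x - y) (k - b - c)
            && ne (6 * k - 78 - a - b - c - x - y) (k - a - c)
            && ne (6 * k - 78 - a - b - c - x - y) (x + (78 + a + b + c) - 5 * k)
            && ne (6 * k - 78 - a - b - c - x - y) (y + (78 + a + b + c) - 5 * k)
            && ir (k - x - y)
            && ne (k - x - y) x
            && ne (k - x - y) y
            && ne (k - x - y) a
            && ne (k - x - y) b
            && ne (k - x - y) c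
            && ne (k - x - y) (k - a - b)
            && ne (k - x - y) (k - b - c)
            && ne (k - x - y) (k - a - c)
            && ne (k - x - y) (x + (78 + a + b + c) - 5 * k)
            && ne (k - x - y) (y + (78 + a + b + c) - 5 * k))

theorem search_true : search = true := by decide +kernel

end Pool.Agent.V5helper79.EMT
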