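import Pool.Agent.V5helper79.EMT.Base

set_option autoImplicit false

/-! Two-directional families of edge-magic total labelings of two cycles (FamEven). -/

namespace Pool.Agent.V5helper79.EMT

open Pool.Agent.R12.SEM Pool.Agent.R12.EMT Pool.Agent.Helper1.CycleMagic
  Pool.Agent.Helper1.CycleMagic.Multi

/-- Data. -/
def ty_10_4_20_41 : Ty Bool Bool where
  K := 18
  w := fun d k => bif d then [1, 1, 1, 1, 0, 1, 1, 1, 1, 1, 0, 1, 2, 0, 2, 2, 2, 2].getD k 0
    else [0, 0, 1, 0, 1, 0, 1, 0, 0, 0, 1, 0, 0, 2, 0, 0, 2, 0].getD k 0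
  fl := fun k => [true, true, true, true, true, true, true, true, true, true, true, true, false, false, false, false, false, false].getD k false
  dj := fun d => bif d then 25 else 10
  G := fun d i => bif d then (bif i then 1 else 4) else (bif i then 0 else 2)
  pcs := [(6, 2, 16), (4, 10, 13), (1, 5, 17), (7, 8, 12), (9, 3, 14), (11, 0, 15)]
  own := fun k => [false, false, false, false, false, false, false, false, false, false, false, false, false, false, false, true, false, false].getD k false

theorem ok_10_4_20_41 : Ok ty_10_4_20_41 := by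
  constructor <;> decide +kernel

theorem st_10_4_20_41 : St ty_10_4_20_41 (two 10 4) 40
    (fun k => [0, 2, 3, 6, 8, 9, 10, 11, 11, 12, 12, 15, 17, 19, 21, 24, 26, 28].getD k 0)
    (fun b => bif b then [1, 15, 3, 23, 1]
      else [2, 10, 4, 11, 12, 7, 27, 8, 13, 18, 2]) := by
  constructor <;> decide +kernel

theorem emt_10_4_20_41 (a b : ℕ) :
    EdgeMagicTotal (twoCycles (10 + 4 * a + 8 * b) (4 + 0 * a + 2 * b)) := by
  have h := fam2E ok_10_4_20_41 (by norm_num) (by norm_num) ⟨_, _, st_10_4_20_41⟩ a b
  have e1 : 10 + 2 * ty_10_4_20_41.G false false * a + 2 * ty_10_4_20_41.G true false * b =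
      10 + 4 * a + 8 * b := by
    simp only [ty_10_4_20_41, cond_true, cond_false]
    try omega
  have e2 : 4 + 2 * ty_10_4_20_41.G false true * a + 2 * ty_10_4_20_41.G true true * b =
      4 + 0 * a + 2 * b := by
    simp only [ty_10_4_20_41, cond_true, cond_false]
    try omega
  rwa [e1, e2] at h

/-- Data. -/
def ty_12_4_20_41 : Ty Bool Bool where
  K := 21
  w := fun d k => bif d then [0, 1, 1, 2, 1, 1, 0, 2, 1, 1, 0, 1, 2, 0, 0, 2, 1, 0, 1, 1, 2].getD k 0
    else [2, 0, 0, 0, 0, 0, 2, 0, 0, 0, 1, 0, 0, 1, 1, 0, 0, 1, 0, 0, 0].getD k 0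
  fl := fun k => [false, true, true, false, true, true, false, false, true, true, true, true, false, true, true, false, true, true, true, true, false].getD k false
  dj := fun d => bif d then 29 else 14
  G := fun d i => bif d then (bif i then 1 else 4) else (bif i then 0 else 2)
  pcs := [(10, 14, 6), (13, 17, 0), (4, 11, 15), (19, 8, 3), (5, 18, 7), (1, 9, 20), (2, 16, 12)]
  own := fun k => [false, false, false, false, false, false, false, false, false, false, false, false, true, false, false, false, false, false, false, false, false].getD k false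

theorem ok_12_4_20_41 : Ok ty_12_4_20_41 := by
  constructor <;> decide +kernel

theorem st_12_4_20_41 : St ty_12_4_20_41 (two 12 4) 48
    (fun k => [1, 2, 4, 6, 7, 9, 10, 11, 13, 14, 16, 17, 20, 21, 21, 23, 23, 25, 27, 28, 31].getD k 0)
    (fun b => bif b then [4, 12, 19, 24, 4]
      else [16, 22, 18, 7, 14, 28, 9, 26, 21, 2, 15, 3, 16]) := by
  constructor <;> decide +kernel

theorem emt_12_4_20_41 (a b : ℕ) :
    EdgeMagicTotal (twoCycles (12 + 4 * a + 8 * b) (4 + 0 * a + 2 * b)) := by
  have h := fam2E ok_12_4_20_41 (by norm_num) (by norm_num) ⟨_, _, st_12_4_20_41⟩ a b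
  have e1 : 12 + 2 * ty_12_4_20_41.G false false * a + 2 * ty_12_4_20_41.G true false * b =
      12 + 4 * a + 8 * b := by
    simp only [ty_12_4_20_41, cond_true, cond_false]
    try omega
  have e2 : 4 + 2 * ty_12_4_20_41.G false true * a + 2 * ty_12_4_20_41.G true true * b =
      4 + 0 * a + 2 * b := by
    simp only [ty_12_4_20_41, cond_true, cond_false]
    try omega
  rwa [e1, e2] at h

/-- Data. -/
def ty_8_4_41_31 : Ty Bool Bool where
  K := 21
  w := fun d k => bif d then [0, 1, 1, 0, 2, 0, 1, 1, 0, 2, 1, 0, 1, 0, 0, 1, 2, 0, 2, 0, 1].getD k 0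
    else [1, 1, 0, 2, 0, 1, 0, 1, 1, 2, 1, 1, 0, 2, 2, 1, 0, 1, 2, 1, 0].getD k 0
  fl := fun k => [true, true, true, false, false, true, true, true, true, false, true, true, true, false, false, true, false, true, false, true, true].getD k false
  dj := fun d => bif d then 23 else 29
  G := fun d i => bif d then (bif i then 1 else 3) else (bif i then 1 else 4)
  pcs := [(1, 10, 18), (11, 5, 14), (7, 15, 9), (19, 8, 3), (17, 0, 13), (6, 20, 4), (2, 12, 16)]
  own := fun k => [false, false, false, false, false, false, false, false, false, false, false, false, false, true, false, false, true, false, false, false, false].getD k false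

theorem ok_8_4_41_31 : Ok ty_8_4_41_31 := by
  constructor <;> decide +kernel

theorem st_8_4_41_31 : St ty_8_4_41_31 (two 8 4) 37
    (fun k => [0, 2, 3, 4, 6, 6, 7, 8, 9, 11, 12, 13, 14, 16, 17, 17, 19, 20, 22, 23, 23].getD k 0)
    (fun b => bif b then [1, 15, 3, 20, 1]
      else [2, 13, 7, 24, 8, 18, 10, 23, 2]) := by
  constructor <;> decide +kernel

theorem emt_8_4_41_31 (a b : ℕ) :
    EdgeMagicTotal (twoCycles (8 + 8 * a + 6 * b) (4 + 2 * a + 2 * b)) := by
  have h := fam2E ok_8_4_41_31 (by norm_num) (by norm_num) ⟨_, _, st_8_4_41_31⟩ a b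
  have e1 : 8 + 2 * ty_8_4_41_31.G false false * a + 2 * ty_8_4_41_31.G true false * b =
      8 + 8 * a + 6 * b := by
    simp only [ty_8_4_41_31, cond_true, cond_false]
    try omega
  have e2 : 4 + 2 * ty_8_4_41_31.G false true * a + 2 * ty_8_4_41_31.G true true * b =
      4 + 2 * a + 2 * b := by
    simp only [ty_8_4_41_31, cond_true, cond_false]
    try omega
  rwa [e1, e2] at h

/-- Data. -/
def ty_10_4_31_21 : Ty Bool Bool where
  K := 15
  w := fun d k => bif d then [0, 1, 0, 1, 1, 1, 1, 0, 1, 0, 2, 0, 2, 0, 2].getD k 0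
    else [1, 1, 1, 1, 0, 1, 1, 2, 0, 1, 0, 2, 2, 1, 2].getD k 0
  fl := fun k => [true, true, true, true, true, true, true, false, true, true, false, false, false, true, false].getD k false
  dj := fun d => bif d then 15 else 21
  G := fun d i => bif d then (bif i then 1 else 2) else (bif i then 1 else 3)
  pcs := [(1, 5, 14), (2, 9, 11), (13, 0, 7), (6, 3, 12), (4, 8, 10)]
  own := fun k => [false, false, false, false, false, false, false, false, false, false, false, false, true, false, false].getD k false

theorem ok_10_4_31_21 : Ok ty_10_4_31_21 := by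
  constructor <;> decide +kernel

theorem st_10_4_31_21 : St ty_10_4_31_21 (two 10 4) 41
    (fun k => [1, 2, 3, 5, 8, 10, 12, 13, 14, 15, 18, 22, 23, 26, 28].getD k 0)
    (fun b => bif b then [6, 10, 24, 12, 6]
      else [2, 11, 3, 16, 4, 17, 15, 8, 14, 26, 2]) := by
  constructor <;> decide +kernel

theorem emt_10_4_31_21 (a b : ℕ) :
    EdgeMagicTotal (twoCycles (10 + 6 * a + 4 * b) (4 + 2 * a + 2 * b)) := by
  have h := fam2E ok_10_4_31_21 (by norm_num) (by norm_num) ⟨_, _, st_10_4_31_21⟩ a b
  have e1 : 10 + 2 * ty_10_4_31_21.G false false * a + 2 * ty_10_4_31_21.G true false * b =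
      10 + 6 * a + 4 * b := by
    simp only [ty_10_4_31_21, cond_true, cond_false]
    try omega
  have e2 : 4 + 2 * ty_10_4_31_21.G false true * a + 2 * ty_10_4_31_21.G true true * b =
      4 + 2 * a + 2 * b := by
    simp only [ty_10_4_31_21, cond_true, cond_false]
    try omega
  rwa [e1, e2] at h

/-- Data. -/
def ty_8_6_31_21 : Ty Bool Bool where
  K := 18
  w := fun d k => bif d then [1, 0, 2, 0, 0, 1, 0, 2, 0, 1, 0, 1, 0, 1, 1, 0, 2, 0].getD k 0
    else [1, 1, 0, 1, 2, 0, 1, 0, 1, 1, 1, 0, 2, 0, 0, 2, 2, 1].getD k 0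
  fl := fun k => [true, true, false, true, false, true, true, false, true, true, true, true, false, true, true, false, false, true].getD k false
  dj := fun d => bif d then 18 else 22
  G := fun d i => bif d then (bif i then 1 else 2) else (bif i then 1 else 3)
  pcs := [(9, 0, 16), (6, 8, 12), (10, 1, 15), (3, 17, 4), (13, 11, 2), (5, 14, 7)]
  own := fun k => [false, false, false, false, true, false, false, true, false, false, false, false, false, false, false, false, false, false].getD k false

theorem ok_8_6_31_21 : Ok ty_8_6_31_21 := by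
  constructor <;> decide +kernel

theorem st_8_6_31_21 : St ty_8_6_31_21 (two 8 6) 42
    (fun k => [2, 3, 6, 7, 8, 9, 10, 11, 13, 14, 15, 15, 18, 20, 21, 23, 25, 26].getD k 0)
    (fun b => bif b then [1, 13, 27, 7, 9, 22, 1]
      else [3, 14, 10, 20, 16, 21, 4, 15, 3]) := by
  constructor <;> decide +kernel

theorem emt_8_6_31_21 (a b : ℕ) :
    EdgeMagicTotal (twoCycles (8 + 6 * a + 4 * b) (6 + 2 * a + 2 * b)) := by
  have h := fam2E ok_8_6_31_21 (by norm_num) (by norm_num) ⟨_, _, st_8_6_31_21⟩ a b
  have e1 : 8 + 2 * ty_8_6_31_21.G false false * a + 2 * ty_8_6_31_21.G true false * b =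
      8 + 6 * a + 4 * b := by
    simp only [ty_8_6_31_21, cond_true, cond_false]
    try omega
  have e2 : 6 + 2 * ty_8_6_31_21.G false true * a + 2 * ty_8_6_31_21.G true true * b =
      6 + 2 * a + 2 * b := by
    simp only [ty_8_6_31_21, cond_true, cond_false]
    try omega
  rwa [e1, e2] at h

/-- Data. -/
def ty_8_6_21_32 : Ty Bool Bool where
  K := 18
  w := fun d k => bif d then [1, 1, 1, 1, 1, 0, 2, 0, 1, 1, 2, 1, 1, 2, 0, 2, 1, 2].getD k 0
    else [0, 0, 1, 0, 1, 2, 0, 1, 0, 1, 2, 0, 1, 0, 1, 2, 0, 0].getD k 0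
  fl := fun k => [true, true, true, true, true, false, false, true, true, true, false, true, true, false, true, false, true, false].getD k false
  dj := fun d => bif d then 27 else 17
  G := fun d i => bif d then (bif i then 2 else 3) else (bif i then 1 else 2)
  pcs := [(2, 9, 15), (12, 4, 10), (14, 7, 5), (11, 1, 13), (8, 0, 17), (3, 16, 6)]
  own := fun k => [false, false, false, false, false, true, true, false, false, false, false, false, false, false, false, false, false, true].getD k false

theorem ok_8_6_21_32 : Ok ty_8_6_21_32 := by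
  constructor <;> decide +kernel

theorem st_8_6_21_32 : St ty_8_6_21_32 (two 8 6) 40
    (fun k => [0, 1, 2, 4, 5, 7, 9, 10, 11, 12, 15, 17, 19, 21, 22, 25, 26, 28].getD k 0)
    (fun b => bif b then [1, 11, 22, 10, 4, 27, 1]
      else [2, 13, 3, 14, 6, 19, 5, 17, 2]) := by
  constructor <;> decide +kernel

theorem emt_8_6_21_32 (a b : ℕ) :
    EdgeMagicTotal (twoCycles (8 + 4 * a + 6 * b) (6 + 2 * a + 4 * b)) := by
  have h := fam2E ok_8_6_21_32 (by norm_num) (by norm_num) ⟨_, _, st_8_6_21_32⟩ a b
  have e1 : 8 + 2 * ty_8_6_21_32.G false false * a + 2 * ty_8_6_21_32.G true false * b =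
      8 + 4 * a + 6 * b := by
    simp only [ty_8_6_21_32, cond_true, cond_false]
    try omega
  have e2 : 6 + 2 * ty_8_6_21_32.G false true * a + 2 * ty_8_6_21_32.G true true * b =
      6 + 2 * a + 4 * b := by
    simp only [ty_8_6_21_32, cond_true, cond_false]
    try omega
  rwa [e1, e2] at h

/-- Data. -/
def ty_8_6_32_11 : Ty Bool Bool where
  K := 21
  w := fun d k => bif d then [1, 0, 0, 1, 0, 0, 0, 0, 0, 0, 1, 0, 0, 1, 2, 0, 0, 0, 0, 0, 2].getD k 0
    else [0, 2, 1, 0, 2, 1, 1, 1, 1, 2, 0, 1, 2, 0, 0, 1, 1, 2, 1, 1, 0].getD k 0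
  fl := fun k => [true, false, true, true, false, true, true, true, true, false, true, true, false, true, false, true, true, false, true, true, false].getD k false
  dj := fun d => bif d then 10 else 31
  G := fun d i => bif d then (bif i then 1 else 1) else (bif i then 2 else 3)
  pcs := [(5, 8, 17), (2, 16, 12), (11, 18, 1), (7, 19, 4), (15, 6, 9), (10, 0, 20), (3, 13, 14)]
  own := fun k => [false, false, false, false, true, false, false, false, false, true, false, false, false, false, true, false, false, false, false, false, false].getD k false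

theorem ok_8_6_32_11 : Ok ty_8_6_32_11 := by
  constructor <;> decide +kernel

theorem st_8_6_32_11 : St ty_8_6_32_11 (two 8 6) 42
    (fun k => [0, 2, 3, 4, 6, 7, 8, 9, 10, 12, 13, 14, 16, 17, 20, 21, 22, 24, 25, 26, 28].getD k 0)
    (fun b => bif b then [4, 18, 5, 27, 9, 21, 4]
      else [1, 13, 7, 11, 23, 3, 14, 26, 1]) := by
  constructor <;> decide +kernel

theorem emt_8_6_32_11 (a b : ℕ) :
    EdgeMagicTotal (twoCycles (8 + 6 * a + 2 * b) (6 + 4 * a + 2 * b)) := by
  have h := fam2E ok_8_6_32_11 (by norm_num) (by norm_num) ⟨_, _, st_8_6_32_11⟩ a b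
  have e1 : 8 + 2 * ty_8_6_32_11.G false false * a + 2 * ty_8_6_32_11.G true false * b =
      8 + 6 * a + 2 * b := by
    simp only [ty_8_6_32_11, cond_true, cond_false]
    try omega
  have e2 : 6 + 2 * ty_8_6_32_11.G false true * a + 2 * ty_8_6_32_11.G true true * b =
      6 + 4 * a + 2 * b := by
    simp only [ty_8_6_32_11, cond_true, cond_false]
    try omega
  rwa [e1, e2] at h

/-- Data. -/
def ty_6_8_32_11 : Ty Bool Bool where
  K := 18
  w := fun d k => bif d then [0, 1, 0, 0, 1, 0, 0, 1, 0, 0, 1, 0, 2, 0, 0, 0, 0, 2].getD k 0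
    else [1, 0, 1, 1, 1, 1, 2, 0, 1, 2, 1, 2, 2, 1, 1, 1, 2, 0].getD k 0
  fl := fun k => [true, true, true, true, true, true, false, true, true, false, true, false, false, true, true, true, false, false].getD k false
  dj := fun d => bif d then 10 else 28
  G := fun d i => bif d then (bif i then 1 else 1) else (bif i then 2 else 3)
  pcs := [(0, 13, 11), (3, 14, 9), (8, 2, 16), (10, 4, 12), (5, 15, 6), (1, 7, 17)]
  own := fun k => [false, false, false, false, false, false, false, false, false, true, false, true, false, false, false, false, false, true].getD k false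

theorem ok_6_8_32_11 : Ok ty_6_8_32_11 := by
  constructor <;> decide +kernel

theorem st_6_8_32_11 : St ty_6_8_32_11 (two 6 8) 39
    (fun k => [1, 2, 3, 5, 5, 7, 8, 8, 10, 12, 14, 18, 19, 19, 21, 23, 25, 28].getD k 0)
    (fun b => bif b then [1, 20, 2, 9, 3, 13, 5, 22, 1]
      else [4, 10, 14, 6, 7, 24, 4]) := by
  constructor <;> decide +kernel

theorem emt_6_8_32_11 (a b : ℕ) :
    EdgeMagicTotal (twoCycles (6 + 6 * a + 2 * b) (8 + 4 * a + 2 * b)) := by
  have h := fam2E ok_6_8_32_11 (by norm_num) (by norm_num) ⟨_, _, st_6_8_32_11⟩ a b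
  have e1 : 6 + 2 * ty_6_8_32_11.G false false * a + 2 * ty_6_8_32_11.G true false * b =
      6 + 6 * a + 2 * b := by
    simp only [ty_6_8_32_11, cond_true, cond_false]
    try omega
  have e2 : 8 + 2 * ty_6_8_32_11.G false true * a + 2 * ty_6_8_32_11.G true true * b =
      8 + 4 * a + 2 * b := by
    simp only [ty_6_8_32_11, cond_true, cond_false]
    try omega
  rwa [e1, e2] at h

end Pool.Agent.V5helper79.EMT
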