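import Pool.Agent.V5helper79.EMT.Base

set_option autoImplicit false

/-! Two-directional families of edge-magic total labelings of two cycles (FamOdd). -/

namespace Pool.Agent.V5helper79.EMT

open Pool.Agent.R12.SEM Pool.Agent.R12.EMT Pool.Agent.Helper1.CycleMagic
  Pool.Agent.Helper1.CycleMagic.Multi

/-- Data. -/
def ty_11_3_20_31 : Ty Bool Bool where
  K := 18
  w := fun d k => bif d then [1, 1, 1, 0, 1, 1, 0, 1, 0, 0, 2, 2, 0, 1, 1, 0, 2, 2].getD k 0
    else [0, 0, 0, 1, 0, 0, 1, 0, 1, 1, 0, 0, 2, 0, 0, 2, 0, 0].getD k 0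
  fl := fun k => [true, true, true, true, true, true, true, true, true, true, false, false, false, true, true, false, false, false].getD k false
  dj := fun d => bif d then 21 else 10
  G := fun d i => bif d then (bif i then 1 else 3) else (bif i then 0 else 2)
  pcs := [(9, 6, 12), (3, 8, 15), (7, 0, 17), (14, 2, 10), (1, 13, 11), (5, 4, 16)]
  own := fun k => [false, false, false, false, false, false, false, false, false, false, false, false, false, false, false, false, true, false].getD k false

theorem ok_11_3_20_31 : Ok ty_11_3_20_31 := by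
  constructor <;> decide +kernel

theorem st_11_3_20_31 : St ty_11_3_20_31 (two 11 3) 38
    (fun k => [0, 4, 4, 5, 5, 7, 8, 9, 10, 11, 12, 13, 18, 20, 21, 22, 25, 28].getD k 0)
    (fun b => bif b then [6, 7, 8, 6]
      else [1, 9, 11, 5, 21, 4, 20, 3, 19, 2, 10, 1]) := by
  constructor <;> decide +kernel

theorem emt_11_3_20_31 (a b : ℕ) :
    EdgeMagicTotal (twoCycles (11 + 4 * a + 6 * b) (3 + 0 * a + 2 * b)) := by
  have h := fam2E ok_11_3_20_31 (by norm_num) (by norm_num) ⟨_, _, st_11_3_20_31⟩ a b
  have e1 : 11 + 2 * ty_11_3_20_31.G false false * a + 2 * ty_11_3_20_31.G true false * b =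
      11 + 4 * a + 6 * b := by
    simp only [ty_11_3_20_31, cond_true, cond_false]
    try omega
  have e2 : 3 + 2 * ty_11_3_20_31.G false true * a + 2 * ty_11_3_20_31.G true true * b =
      3 + 0 * a + 2 * b := by
    simp only [ty_11_3_20_31, cond_true, cond_false]
    try omega
  rwa [e1, e2] at h

/-- Data. -/
def ty_13_3_20_31 : Ty Bool Bool where
  K := 15
  w := fun d k => bif d then [1, 1, 1, 1, 0, 2, 1, 0, 1, 1, 1, 0, 2, 2, 2].getD k 0
    else [0, 1, 0, 0, 1, 0, 1, 1, 0, 0, 0, 2, 0, 2, 0].getD k 0
  fl := fun k => [true, true, true, true, true, false, true, true, true, true, true, false, false, false, false].getD k false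
  dj := fun d => bif d then 21 else 10
  G := fun d i => bif d then (bif i then 1 else 3) else (bif i then 0 else 2)
  pcs := [(1, 6, 13), (4, 7, 11), (8, 9, 5), (2, 3, 14), (10, 0, 12)]
  own := fun k => [false, false, false, false, false, false, false, false, false, false, false, false, true, false, false].getD k false

theorem ok_13_3_20_31 : Ok ty_13_3_20_31 := by
  constructor <;> decide +kernel

theorem st_13_3_20_31 : St ty_13_3_20_31 (two 13 3) 48
    (fun k => [3, 6, 9, 9, 10, 13, 13, 15, 16, 18, 21, 22, 23, 28, 29].getD k 0)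
    (fun b => bif b then [4, 21, 26, 4]
      else [6, 14, 27, 19, 16, 10, 9, 15, 25, 20, 11, 5, 12, 6]) := by
  constructor <;> decide +kernel

theorem emt_13_3_20_31 (a b : ℕ) :
    EdgeMagicTotal (twoCycles (13 + 4 * a + 6 * b) (3 + 0 * a + 2 * b)) := by
  have h := fam2E ok_13_3_20_31 (by norm_num) (by norm_num) ⟨_, _, st_13_3_20_31⟩ a b
  have e1 : 13 + 2 * ty_13_3_20_31.G false false * a + 2 * ty_13_3_20_31.G true false * b =
      13 + 4 * a + 6 * b := by
    simp only [ty_13_3_20_31, cond_true, cond_false]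
    try omega
  have e2 : 3 + 2 * ty_13_3_20_31.G false true * a + 2 * ty_13_3_20_31.G true true * b =
      3 + 0 * a + 2 * b := by
    simp only [ty_13_3_20_31, cond_true, cond_false]
    try omega
  rwa [e1, e2] at h

/-- Data. -/
def ty_7_5_31_21 : Ty Bool Bool where
  K := 21
  w := fun d k => bif d then [1, 0, 0, 1, 0, 1, 0, 1, 0, 0, 0, 1, 0, 1, 2, 0, 0, 2, 0, 0, 2].getD k 0
    else [0, 1, 1, 0, 1, 0, 1, 0, 1, 2, 1, 0, 1, 0, 0, 2, 1, 0, 2, 2, 0].getD k 0
  fl := fun k => [true, true, true, true, true, true, true, true, true, false, true, true, true, true, false, false, true, false, false, false, false].getD k false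
  dj := fun d => bif d then 15 else 21
  G := fun d i => bif d then (bif i then 1 else 2) else (bif i then 1 else 3)
  pcs := [(6, 16, 9), (8, 2, 19), (1, 10, 18), (4, 12, 15), (3, 5, 20), (11, 7, 14), (13, 0, 17)]
  own := fun k => [false, false, false, false, false, false, false, false, false, false, false, false, false, false, false, true, false, true, false, false, false].getD k false

theorem ok_7_5_31_21 : Ok ty_7_5_31_21 := by
  constructor <;> decide +kernel

theorem st_7_5_31_21 : St ty_7_5_31_21 (two 7 5) 34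
    (fun k => [0, 2, 3, 4, 5, 5, 6, 7, 8, 10, 10, 11, 12, 13, 15, 16, 17, 20, 21, 22, 24].getD k 0)
    (fun b => bif b then [1, 13, 5, 17, 14, 1]
      else [2, 9, 18, 6, 4, 8, 11, 2]) := by
  constructor <;> decide +kernel

theorem emt_7_5_31_21 (a b : ℕ) :
    EdgeMagicTotal (twoCycles (7 + 6 * a + 4 * b) (5 + 2 * a + 2 * b)) := by
  have h := fam2E ok_7_5_31_21 (by norm_num) (by norm_num) ⟨_, _, st_7_5_31_21⟩ a b
  have e1 : 7 + 2 * ty_7_5_31_21.G false false * a + 2 * ty_7_5_31_21.G true false * b =
      7 + 6 * a + 4 * b := by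
    simp only [ty_7_5_31_21, cond_true, cond_false]
    try omega
  have e2 : 5 + 2 * ty_7_5_31_21.G false true * a + 2 * ty_7_5_31_21.G true true * b =
      5 + 2 * a + 2 * b := by
    simp only [ty_7_5_31_21, cond_true, cond_false]
    try omega
  rwa [e1, e2] at h

/-- Data. -/
def ty_11_3_31_21 : Ty Bool Bool where
  K := 15
  w := fun d k => bif d then [1, 1, 0, 1, 0, 0, 1, 0, 1, 1, 2, 0, 2, 0, 2].getD k 0
    else [0, 1, 1, 1, 1, 1, 0, 2, 1, 1, 2, 1, 2, 2, 0].getD k 0
  fl := fun k => [true, true, true, true, true, true, true, false, true, true, false, true, false, false, false].getD k false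
  dj := fun d => bif d then 15 else 21
  G := fun d i => bif d then (bif i then 1 else 2) else (bif i then 1 else 3)
  pcs := [(2, 5, 13), (11, 4, 7), (8, 1, 12), (9, 3, 10), (6, 0, 14)]
  own := fun k => [false, false, false, false, false, false, false, false, false, false, true, false, false, false, false].getD k false

theorem ok_11_3_31_21 : Ok ty_11_3_31_21 := by
  constructor <;> decide +kernel

theorem st_11_3_31_21 : St ty_11_3_31_21 (two 11 3) 38
    (fun k => [0, 1, 4, 5, 7, 8, 9, 10, 12, 15, 17, 20, 24, 25, 28].getD k 0)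
    (fun b => bif b then [5, 6, 15, 5]
      else [1, 9, 4, 8, 20, 7, 12, 2, 13, 3, 21, 1]) := by
  constructor <;> decide +kernel

theorem emt_11_3_31_21 (a b : ℕ) :
    EdgeMagicTotal (twoCycles (11 + 6 * a + 4 * b) (3 + 2 * a + 2 * b)) := by
  have h := fam2E ok_11_3_31_21 (by norm_num) (by norm_num) ⟨_, _, st_11_3_31_21⟩ a b
  have e1 : 11 + 2 * ty_11_3_31_21.G false false * a + 2 * ty_11_3_31_21.G true false * b =
      11 + 6 * a + 4 * b := by
    simp only [ty_11_3_31_21, cond_true, cond_false]
    try omega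
  have e2 : 3 + 2 * ty_11_3_31_21.G false true * a + 2 * ty_11_3_31_21.G true true * b =
      3 + 2 * a + 2 * b := by
    simp only [ty_11_3_31_21, cond_true, cond_false]
    try omega
  rwa [e1, e2] at h

/-- Data. -/
def ty_5_5_21_32 : Ty Bool Bool where
  K := 21
  w := fun d k => bif d then [1, 0, 1, 1, 1, 1, 2, 0, 0, 1, 1, 0, 1, 1, 1, 0, 2, 2, 0, 2, 2].getD k 0
    else [0, 1, 0, 1, 0, 1, 0, 1, 1, 0, 0, 1, 0, 0, 0, 2, 0, 0, 2, 0, 2].getD k 0
  fl := fun k => [true, true, true, true, true, true, false, true, true, true, true, true, true, true, true, false, false, false, false, false, false].getD k false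
  dj := fun d => bif d then 26 else 15
  G := fun d i => bif d then (bif i then 2 else 3) else (bif i then 1 else 2)
  pcs := [(7, 8, 15), (3, 5, 20), (1, 11, 18), (4, 9, 17), (10, 0, 19), (14, 2, 16), (12, 13, 6)]
  own := fun k => [false, false, false, false, false, false, false, false, false, false, false, false, false, false, false, true, false, true, false, true, false].getD k false

theorem ok_5_5_21_32 : Ok ty_5_5_21_32 := by
  constructor <;> decide +kernel

theorem st_5_5_21_32 : St ty_5_5_21_32 (two 5 5) 27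
    (fun k => [0, 2, 2, 3, 4, 4, 6, 7, 7, 8, 9, 9, 10, 10, 11, 12, 13, 14, 15, 17, 19].getD k 0)
    (fun b => bif b then [1, 8, 7, 4, 9, 1]
      else [2, 5, 3, 11, 10, 2]) := by
  constructor <;> decide +kernel

theorem emt_5_5_21_32 (a b : ℕ) :
    EdgeMagicTotal (twoCycles (5 + 4 * a + 6 * b) (5 + 2 * a + 4 * b)) := by
  have h := fam2E ok_5_5_21_32 (by norm_num) (by norm_num) ⟨_, _, st_5_5_21_32⟩ a b
  have e1 : 5 + 2 * ty_5_5_21_32.G false false * a + 2 * ty_5_5_21_32.G true false * b =
      5 + 4 * a + 6 * b := by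
    simp only [ty_5_5_21_32, cond_true, cond_false]
    try omega
  have e2 : 5 + 2 * ty_5_5_21_32.G false true * a + 2 * ty_5_5_21_32.G true true * b =
      5 + 2 * a + 4 * b := by
    simp only [ty_5_5_21_32, cond_true, cond_false]
    try omega
  rwa [e1, e2] at h

/-- Data. -/
def ty_9_5_21_32 : Ty Bool Bool where
  K := 24
  w := fun d k => bif d then [1, 0, 1, 1, 0, 1, 1, 0, 2, 0, 0, 1, 1, 0, 1, 1, 1, 0, 2, 2, 0, 2, 0, 2].getD k 0
    else [0, 1, 0, 0, 1, 0, 0, 1, 0, 1, 1, 0, 0, 1, 0, 0, 0, 2, 0, 0, 2, 0, 2, 0].getD k 0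
  fl := fun k => [true, true, true, true, true, true, true, true, false, true, true, true, true, true, true, true, true, false, false, false, false, false, false, false].getD k false
  dj := fun d => bif d then 26 else 15
  G := fun d i => bif d then (bif i then 2 else 3) else (bif i then 1 else 2)
  pcs := [(9, 1, 22), (4, 10, 20), (13, 7, 17), (6, 3, 23), (16, 2, 18), (14, 15, 8), (12, 0, 21), (5, 11, 19)]
  own := fun k => [false, false, false, false, false, false, false, false, false, false, false, false, false, false, false, false, false, true, false, true, false, true, false, false].getD k false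

theorem ok_9_5_21_32 : Ok ty_9_5_21_32 := by
  constructor <;> decide +kernel

theorem st_9_5_21_32 : St ty_9_5_21_32 (two 9 5) 37
    (fun k => [0, 1, 2, 3, 4, 5, 6, 6, 8, 9, 10, 11, 12, 13, 14, 14, 15, 17, 19, 20, 22, 24, 26, 27].getD k 0)
    (fun b => bif b then [1, 12, 5, 7, 13, 1]
      else [2, 9, 10, 11, 4, 6, 3, 15, 14, 2]) := by
  constructor <;> decide +kernel

theorem emt_9_5_21_32 (a b : ℕ) :
    EdgeMagicTotal (twoCycles (9 + 4 * a + 6 * b) (5 + 2 * a + 4 * b)) := by
  have h := fam2E ok_9_5_21_32 (by norm_num) (by norm_num) ⟨_, _, st_9_5_21_32⟩ a b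
  have e1 : 9 + 2 * ty_9_5_21_32.G false false * a + 2 * ty_9_5_21_32.G true false * b =
      9 + 4 * a + 6 * b := by
    simp only [ty_9_5_21_32, cond_true, cond_false]
    try omega
  have e2 : 5 + 2 * ty_9_5_21_32.G false true * a + 2 * ty_9_5_21_32.G true true * b =
      5 + 2 * a + 4 * b := by
    simp only [ty_9_5_21_32, cond_true, cond_false]
    try omega
  rwa [e1, e2] at h

/-- Data. -/
def ty_7_7_32_11 : Ty Bool Bool where
  K := 18
  w := fun d k => bif d then [0, 0, 1, 0, 1, 1, 0, 0, 0, 1, 0, 0, 0, 2, 0, 0, 0, 2].getD k 0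
    else [1, 2, 1, 1, 0, 1, 2, 1, 1, 0, 1, 1, 1, 0, 1, 2, 2, 2].getD k 0
  fl := fun k => [true, false, true, true, true, true, false, true, true, true, true, true, true, false, true, false, false, false].getD k false
  dj := fun d => bif d then 10 else 28
  G := fun d i => bif d then (bif i then 1 else 1) else (bif i then 2 else 3)
  pcs := [(10, 0, 16), (7, 3, 15), (2, 5, 17), (8, 11, 6), (12, 14, 1), (4, 9, 13)]
  own := fun k => [false, false, false, false, false, false, false, false, false, false, false, false, false, true, false, true, true, false].getD k false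

theorem ok_7_7_32_11 : Ok ty_7_7_32_11 := by
  constructor <;> decide +kernel

theorem st_7_7_32_11 : St ty_7_7_32_11 (two 7 7) 40
    (fun k => [0, 3, 4, 6, 7, 7, 10, 12, 13, 13, 14, 16, 17, 19, 19, 21, 25, 28].getD k 0)
    (fun b => bif b then [1, 14, 7, 12, 6, 23, 15, 1]
      else [4, 8, 5, 9, 13, 17, 20, 4]) := by
  constructor <;> decide +kernel

theorem emt_7_7_32_11 (a b : ℕ) :
    EdgeMagicTotal (twoCycles (7 + 6 * a + 2 * b) (7 + 4 * a + 2 * b)) := by
  have h := fam2E ok_7_7_32_11 (by norm_num) (by norm_num) ⟨_, _, st_7_7_32_11⟩ a b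
  have e1 : 7 + 2 * ty_7_7_32_11.G false false * a + 2 * ty_7_7_32_11.G true false * b =
      7 + 6 * a + 2 * b := by
    simp only [ty_7_7_32_11, cond_true, cond_false]
    try omega
  have e2 : 7 + 2 * ty_7_7_32_11.G false true * a + 2 * ty_7_7_32_11.G true true * b =
      7 + 4 * a + 2 * b := by
    simp only [ty_7_7_32_11, cond_true, cond_false]
    try omega
  rwa [e1, e2] at h

end Pool.Agent.V5helper79.EMT
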