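import Pool.Agent.V5helper79.EMT.Base

set_option autoImplicit false

/-! Single edge-magic total labelings of two cycles. -/

namespace Pool.Agent.V5helper79.EMT

open Pool.Agent.R12.SEM Pool.Agent.R12.EMT Pool.Agent.Helper1.CycleMagic
  Pool.Agent.Helper1.CycleMagic.Multi

theorem fin_5_3 : EdgeMagicTotal (twoCycles 5 3) := by
  have h : St tyN (two 5 3) 24 (fun _ => 0)
      (fun b => bif b then [3, 9, 10, 3]
        else [1, 7, 4, 14, 8, 1]) := by
    constructor <;> decide +kernel
  exact Mem.emt (by omega) (by omega) ⟨_, _, h⟩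

theorem fin_7_3 : EdgeMagicTotal (twoCycles 7 3) := by
  have h : St tyN (two 7 3) 27 (fun _ => 0)
      (fun b => bif b then [3, 4, 8, 3]
        else [1, 7, 2, 11, 10, 5, 9, 1]) := by
    constructor <;> decide +kernel
  exact Mem.emt (by omega) (by omega) ⟨_, _, h⟩

theorem fin_9_3 : EdgeMagicTotal (twoCycles 9 3) := by
  have h : St tyN (two 9 3) 32 (fun _ => 0)
      (fun b => bif b then [2, 9, 10, 2]
        else [1, 7, 3, 6, 8, 5, 12, 4, 17, 1]) := by
    constructor <;> decide +kernel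
  exact Mem.emt (by omega) (by omega) ⟨_, _, h⟩

theorem fin_11_5 : EdgeMagicTotal (twoCycles 11 5) := by
  have h : St tyN (two 11 5) 42 (fun _ => 0)
      (fun b => bif b then [4, 6, 13, 5, 12, 4]
        else [1, 10, 2, 11, 3, 17, 16, 8, 15, 7, 14, 1]) := by
    constructor <;> decide +kernel
  exact Mem.emt (by omega) (by omega) ⟨_, _, h⟩

theorem fin_13_5 : EdgeMagicTotal (twoCycles 13 5) := by
  have h : St tyN (two 13 5) 47 (fun _ => 0)
      (fun b => bif b then [3, 13, 15, 4, 14, 3]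
        else [1, 10, 5, 9, 12, 8, 18, 7, 17, 6, 25, 2, 11, 1]) := by
    constructor <;> decide +kernel
  exact Mem.emt (by omega) (by omega) ⟨_, _, h⟩

theorem fin_15_7 : EdgeMagicTotal (twoCycles 15 7) := by
  have h : St tyN (two 15 7) 63 (fun _ => 0)
      (fun b => bif b then [9, 26, 34, 27, 35, 8, 36, 9]
        else [4, 15, 5, 16, 6, 32, 7, 33, 13, 10, 14, 11, 21, 12, 22, 4]) := by
    constructor <;> decide +kernel
  exact Mem.emt (by omega) (by omega) ⟨_, _, h⟩

theorem fin_17_7 : EdgeMagicTotal (twoCycles 17 7) := by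
  have h : St tyN (two 17 7) 63 (fun _ => 0)
      (fun b => bif b then [3, 12, 19, 13, 20, 14, 24, 3]
        else [2, 17, 4, 18, 5, 15, 9, 16, 10, 6, 11, 7, 33, 8, 34, 1, 35, 2]) := by
    constructor <;> decide +kernel
  exact Mem.emt (by omega) (by omega) ⟨_, _, h⟩

theorem fin_21_9 : EdgeMagicTotal (twoCycles 21 9) := by
  have h : St tyN (two 21 9) 81 (fun _ => 0)
      (fun b => bif b then [11, 13, 12, 14, 46, 15, 47, 10, 48, 11]
        else [2, 27, 1, 26, 6, 25, 5, 18, 4, 17, 30, 16, 29, 9, 28, 8, 42, 7, 41, 3, 40, 2]) := by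
    constructor <;> decide +kernel
  exact Mem.emt (by omega) (by omega) ⟨_, _, h⟩

theorem fin_4_4 : EdgeMagicTotal (twoCycles 4 4) := by
  have h : St tyN (two 4 4) 22 (fun _ => 0)
      (fun b => bif b then [2, 8, 4, 11, 2]
        else [1, 5, 3, 6, 1]) := by
    constructor <;> decide +kernel
  exact Mem.emt (by omega) (by omega) ⟨_, _, h⟩

theorem fin_6_4 : EdgeMagicTotal (twoCycles 6 4) := by
  have h : St tyN (two 6 4) 27 (fun _ => 0)
      (fun b => bif b then [2, 10, 4, 14, 2]
        else [1, 6, 5, 3, 7, 8, 1]) := by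
    constructor <;> decide +kernel
  exact Mem.emt (by omega) (by omega) ⟨_, _, h⟩

theorem fin_6_6 : EdgeMagicTotal (twoCycles 6 6) := by
  have h : St tyN (two 6 6) 32 (fun _ => 0)
      (fun b => bif b then [3, 10, 5, 6, 12, 11, 3]
        else [1, 7, 2, 8, 4, 15, 1]) := by
    constructor <;> decide +kernel
  exact Mem.emt (by omega) (by omega) ⟨_, _, h⟩

theorem fin_10_6 : EdgeMagicTotal (twoCycles 10 6) := by
  have h : St tyN (two 10 6) 42 (fun _ => 0)
      (fun b => bif b then [3, 16, 7, 15, 6, 22, 3]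
        else [1, 9, 2, 10, 8, 5, 12, 4, 11, 13, 1]) := by
    constructor <;> decide +kernel
  exact Mem.emt (by omega) (by omega) ⟨_, _, h⟩

theorem fin_12_6 : EdgeMagicTotal (twoCycles 12 6) := by
  have h : St tyN (two 12 6) 47 (fun _ => 0)
      (fun b => bif b then [3, 17, 9, 16, 8, 24, 3]
        else [1, 11, 2, 12, 5, 13, 6, 10, 18, 4, 7, 14, 1]) := by
    constructor <;> decide +kernel
  exact Mem.emt (by omega) (by omega) ⟨_, _, h⟩

theorem fin_8_8 : EdgeMagicTotal (twoCycles 8 8) := by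
  have h : St tyN (two 8 8) 44 (fun _ => 0)
      (fun b => bif b then [3, 9, 4, 10, 5, 11, 19, 23, 3]
        else [1, 16, 8, 15, 7, 13, 6, 26, 1]) := by
    constructor <;> decide +kernel
  exact Mem.emt (by omega) (by omega) ⟨_, _, h⟩

theorem fin_16_8 : EdgeMagicTotal (twoCycles 16 8) := by
  have h : St tyN (two 16 8) 63 (fun _ => 0)
      (fun b => bif b then [7, 10, 6, 9, 24, 8, 23, 11, 7]
        else [1, 18, 2, 19, 3, 20, 4, 21, 14, 22, 15, 12, 16, 13, 33, 25, 1]) := by
    constructor <;> decide +kernel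
  exact Mem.emt (by omega) (by omega) ⟨_, _, h⟩

theorem fin_10_10 : EdgeMagicTotal (twoCycles 10 10) := by
  have h : St tyN (two 10 10) 55 (fun _ => 0)
      (fun b => bif b then [1, 16, 2, 17, 3, 18, 22, 29, 21, 28, 1]
        else [7, 8, 20, 12, 19, 11, 14, 10, 13, 9, 7]) := by
    constructor <;> decide +kernel
  exact Mem.emt (by omega) (by omega) ⟨_, _, h⟩

theorem fin_4_3 : EdgeMagicTotal (twoCycles 4 3) := by
  have h : St tyN (two 4 3) 21 (fun _ => 0)
      (fun b => bif b then [2, 8, 9, 2]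
        else [1, 6, 3, 13, 1]) := by
    constructor <;> decide +kernel
  exact Mem.emt (by omega) (by omega) ⟨_, _, h⟩

end Pool.Agent.V5helper79.EMT
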