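import Pool.Agent.V5helper79.EMT.FamOdd
import Pool.Agent.V5helper79.EMT.FamEven
import Pool.Agent.V5helper79.EMT.Fin

set_option autoImplicit false

/-! All pairs of cycles except two triangles have an edge-magic total labeling. -/

namespace Pool.Agent.V5helper79.EMT

open Pool.Agent.R12.SEM Pool.Agent.R12.EMT Pool.Agent.Helper1.CycleMagic
  Pool.Agent.Helper1.CycleMagic.Multi

theorem emt_cast {m n m' n' : ℕ} (h : EdgeMagicTotal (twoCycles m' n')) (e1 : m' = m)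
    (e2 : n' = n) : EdgeMagicTotal (twoCycles m n) := by
  subst e1 e2
  exact h

theorem emt_odd_odd (m n : ℕ) (hn : 3 ≤ n) (hmn : n ≤ m) (h3 : ¬ (m = 3 ∧ n = 3))
    (om : m % 2 = 1) (on : n % 2 = 1) : EdgeMagicTotal (twoCycles m n) := by
  by_cases c1 : 3 * n + 2 ≤ m
  · by_cases c2 : m % 4 = n % 4
    · exact emt_cast (emt_11_3_20_31 ((m - 3 * n - 2) / 4) ((n - 3) / 2)) (by omega) (by omega)
    · exact emt_cast (emt_13_3_20_31 ((m - 3 * n - 4) / 4) ((n - 3) / 2)) (by omega) (by omega)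
  by_cases c3 : 2 * m + 7 ≤ 3 * n
  · exact emt_cast (emt_7_7_32_11 ((m - n) / 2) ((3 * n - 2 * m - 7) / 2)) (by omega) (by omega)
  by_cases c4 : m + 5 ≤ 2 * n
  · exact emt_cast (emt_5_5_21_32 ((2 * m + 5 - 3 * n) / 2) ((2 * n - m - 5) / 2)) (by omega)
      (by omega)
  by_cases c5 : 2 * n ≤ m + 3 ∧ m + 8 ≤ 3 * n
  · exact emt_cast (emt_7_5_31_21 ((m + 3 - 2 * n) / 2) ((3 * n - m - 8) / 2)) (by omega)
      (by omega)
  by_cases c6 : 2 * n + 5 ≤ m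
  · exact emt_cast (emt_11_3_31_21 ((m - 2 * n - 5) / 2) ((3 * n + 2 - m) / 2)) (by omega)
      (by omega)
  by_cases c7 : m + 1 ≤ 2 * n ∧ 3 * n + 3 ≤ 2 * m
  · exact emt_cast (emt_9_5_21_32 ((2 * m - 3 * n - 3) / 2) ((2 * n - m - 1) / 2)) (by omega)
      (by omega)
  have e : (m = 5 ∧ n = 3) ∨ (m = 7 ∧ n = 3) ∨ (m = 9 ∧ n = 3) ∨ (m = 11 ∧ n = 5) ∨
      (m = 13 ∧ n = 5) ∨ (m = 15 ∧ n = 7) ∨ (m = 17 ∧ n = 7) ∨ (m = 21 ∧ n = 9) := by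
    omega
  rcases e with ⟨rfl, rfl⟩ | ⟨rfl, rfl⟩ | ⟨rfl, rfl⟩ | ⟨rfl, rfl⟩ | ⟨rfl, rfl⟩ | ⟨rfl, rfl⟩ |
    ⟨rfl, rfl⟩ | ⟨rfl, rfl⟩
  · exact fin_5_3
  · exact fin_7_3
  · exact fin_9_3
  · exact fin_11_5
  · exact fin_13_5
  · exact fin_15_7
  · exact fin_17_7
  · exact fin_21_9

theorem emt_even_even (m n : ℕ) (hn : 3 ≤ n) (hmn : n ≤ m)
    (om : m % 2 = 0) (on : n % 2 = 0) : EdgeMagicTotal (twoCycles m n) := by
  by_cases c1 : 4 * n ≤ m + 6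
  · by_cases c2 : m % 4 = 2
    · exact emt_cast (emt_10_4_20_41 ((m + 6 - 4 * n) / 4) ((n - 4) / 2)) (by omega) (by omega)
    · exact emt_cast (emt_12_4_20_41 ((m + 4 - 4 * n) / 4) ((n - 4) / 2)) (by omega) (by omega)
  by_cases c3 : 3 * n ≤ m + 4
  · exact emt_cast (emt_8_4_41_31 ((m + 4 - 3 * n) / 2) ((4 * n - m - 8) / 2)) (by omega)
      (by omega)
  by_cases c4 : 2 * n + 2 ≤ m
  · exact emt_cast (emt_10_4_31_21 ((m - 2 * n - 2) / 2) ((3 * n - m - 2) / 2)) (by omega)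
      (by omega)
  by_cases c5 : 2 * n ≤ m + 4 ∧ m + 10 ≤ 3 * n
  · exact emt_cast (emt_8_6_31_21 ((m + 4 - 2 * n) / 2) ((3 * n - m - 10) / 2)) (by omega)
      (by omega)
  by_cases c6 : 3 * n ≤ 2 * m + 2 ∧ m + 4 ≤ 2 * n
  · exact emt_cast (emt_8_6_21_32 ((2 * m + 2 - 3 * n) / 2) ((2 * n - m - 4) / 2)) (by omega)
      (by omega)
  by_cases c7 : n + 2 ≤ m ∧ 2 * m + 2 ≤ 3 * n
  · exact emt_cast (emt_8_6_32_11 ((m - n - 2) / 2) ((3 * n - 2 * m - 2) / 2)) (by omega)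
      (by omega)
  by_cases c8 : n = m ∧ 12 ≤ n
  · exact emt_cast (emt_6_8_32_11 1 ((n - 12) / 2)) (by omega) (by omega)
  have e : (m = 4 ∧ n = 4) ∨ (m = 6 ∧ n = 4) ∨ (m = 6 ∧ n = 6) ∨ (m = 10 ∧ n = 6) ∨
      (m = 12 ∧ n = 6) ∨ (m = 8 ∧ n = 8) ∨ (m = 16 ∧ n = 8) ∨ (m = 10 ∧ n = 10) := by
    omega
  rcases e with ⟨rfl, rfl⟩ | ⟨rfl, rfl⟩ | ⟨rfl, rfl⟩ | ⟨rfl, rfl⟩ | ⟨rfl, rfl⟩ | ⟨rfl, rfl⟩ |
    ⟨rfl, rfl⟩ | ⟨rfl, rfl⟩
  · exact fin_4_4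
  · exact fin_6_4
  · exact fin_6_6
  · exact fin_10_6
  · exact fin_12_6
  · exact fin_8_8
  · exact fin_16_8
  · exact fin_10_10

/-- The positive part, ordered. -/
theorem emt_of_le (m n : ℕ) (hn : 3 ≤ n) (hmn : n ≤ m) (h3 : ¬ (m = 3 ∧ n = 3)) :
    EdgeMagicTotal (twoCycles m n) := by
  rcases Nat.even_or_odd (m + n) with he | ho
  · obtain ⟨t, ht⟩ := he
    rcases Nat.mod_two_eq_zero_or_one m with h1 | h1
    · exact emt_even_even m n hn hmn h1 (by omega)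
    · exact emt_odd_odd m n hn hmn h3 h1 (by omega)
  · by_cases h4 : m = 4 ∧ n = 3
    · obtain ⟨rfl, rfl⟩ := h4
      exact fin_4_3
    · exact has_emt (by omega) (by omega) (has_all m n (by omega) hn (by omega) ho)

/-- The positive part. -/
theorem emt_all (m n : ℕ) (hm : 3 ≤ m) (hn : 3 ≤ n) (h3 : ¬ (m = 3 ∧ n = 3)) :
    EdgeMagicTotal (twoCycles m n) := by
  rcases Nat.le_total n m with h | h
  · exact emt_of_le m n hn h h3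
  · exact emt_symm (emt_of_le n m hm h (by omega))

end Pool.Agent.V5helper79.EMT
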